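import Pool.Agent.Lib_helper64.FO.CrossThm

/-!
# Few-orbit realizations of the cross-polytope

For every `d ≥ 3` and `1 ≤ k ≤ d`, all `k`-orbit realizations of the `d`-cross-polytope in `E d`:
the diagonals are orthogonal and concentric, and either all have the same length (`k = 1`) or all
but one have the same length (`k = d`).
-/

open Lib_helper64.FO

/-- Let `d ≥ 3` and `1 ≤ k ≤ d`.  A map `f` is (the vertex map of) a `k`-orbit realization in
Euclidean `d`-space of the `d`-cross-polytope if and only if there are a point `c`, an orthonormal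
basis `u` and numbers `s i > 0` with `f (± e_i) = c ± s i u i`, where either `k = 1` and all `s i`
are equal, or `k = d` and all `s i` with `i ≠ p` are equal but different from `s p`, for some `p`. -/
theorem Pool.Agent.Results.MP_0bb2d9_co.CrossPolytope.result (d : ℕ) (hd : 3 ≤ d)
    (f : WithTop (SV d) → E d) (k : ℕ) (_ : 1 ≤ k) (hk : k ≤ d) :
    IsOrbitRealization rkCross f k ↔
      ∃ (c : E d) (u : OrthonormalBasis (Fin d) ℝ (E d)) (s : Fin d → ℝ), CrossForm f c u s ∧
        ((k = 1 ∧ ∀ i j, s i = s j) ∨
          (k = d ∧ ∃ p, (∀ i j, i ≠ p → j ≠ p → s i = s j) ∧ ∀ i, i ≠ p → s i ≠ s p)) :=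
  cross_class hd f k hk
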