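import Pool.Agent.Lib_helper64.FO.CubeFinal

/-!
# Few-orbit realizations of the cube

For every `d ≥ 4` and `1 ≤ k ≤ d`, all `k`-orbit realizations of the `d`-cube in `E d`.
-/

open Lib_helper64.FO

/-- Let `d ≥ 4` and `1 ≤ k ≤ d`.  A map `f` is (the vertex map of) a `k`-orbit realization in
Euclidean `d`-space of the `d`-cube if and only if there are a point `c` and an orthonormal basis
`u` such that either
* for some `a, b ≠ 0` with `d` even if `b = -a`, the vertex `x ∈ {1, -1} ^ d` goes to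
  `c + a ∑ x_i u_i` if `∏ x_i = 1` and to `c + b ∑ x_i u_i` if `∏ x_i = -1`; here `k = 1` if
  `a² = b²` and `k = 2` otherwise; or
* for some coordinate `p`, exponents `α β γ δ` in `{0, 1}` satisfying the explicit condition
  `Indep` and some `a, b > 0`, the vertex `x` goes to
  `c + b x_p ^ γ π ^ δ u_p + ∑_{i ≠ p} a x_i x_p ^ α π ^ β u_i`, where `π = ∏ x_i`, and not
  (`α = 0`, `γ = 1`, `β = δ` and `a = b`); here `k = d`. -/
theorem Pool.Agent.Results.MP_0bb2d9_co.Cube.result (d : ℕ) (hd : 4 ≤ d)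
    (f : (WithTop (SV d))ᵒᵈ → E d) (k : ℕ) (_ : 1 ≤ k) (hk : k ≤ d) :
    IsOrbitRealization rkCube f k ↔
      ∃ (c : E d) (u : OrthonormalBasis (Fin d) ℝ (E d)),
        (∃ a b : ℝ, FormI (fun x => f (cubeVertex x)) c u a b ∧
          (a ≠ 0 ∧ b ≠ 0 ∧ (b = -a → Even d)) ∧
          ((k = 1 ∧ a ^ 2 = b ^ 2) ∨ (k = 2 ∧ a ^ 2 ≠ b ^ 2))) ∨
        (∃ (p : Fin d) (α β γ δ : Bool) (a b : ℝ),
          FormII (fun x => f (cubeVertex x)) c u p α β γ δ a b ∧ Indep d α β γ δ ∧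
          ¬ (α = false ∧ γ = true ∧ β = δ ∧ a = b) ∧ k = d) :=
  cube_class hd f k hk
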