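import Pool.Agent.KOX.Final

/-!
# MP_0bb2d9_co: all k-orbit realizations of regular d-polytopes, constructed, k ≥ 2, large d

All definitions are in `Pool/Agent/KOR/Base.lean` (polytopes, realizations, data, models) and
`Pool/Agent/KOX/Defs.lean` (the points, the coset poset).
-/

namespace Pool.Agent.Results.MP_0bb2d9_co.KOrbitExplicit

open KOR

/-- All `k`-orbit realizations of regular `d`-polytopes, for `k ≥ 2` and
`d ≥ k + 4 (⌊log2 k⌋ + 4) ^ 2`, and the numbers `k` that occur. -/
theorem result (k d : ℕ) (hk : 2 ≤ k) (hd : k + 4 * (Nat.log 2 k + 4) ^ 2 ≤ d) :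
    (∀ (P : Type) [PartialOrder P] (rk : P → ℤ) (f : P → E d),
      (RegularPolytope d rk ∧ IsOrbitRealization k rk f) ↔ KOX.Constructed k rk f) ∧
    ((∃ (P : Type) (_ : PartialOrder P) (_ : Finite P) (rk : P → ℤ) (f : P → E d),
      RegularPolytope d rk ∧ IsOrbitRealization k rk f) ↔ Even k) ∧
    (∃ (P : Type) (_ : PartialOrder P) (_ : Infinite P) (rk : P → ℤ) (f : P → E d),
      RegularPolytope d rk ∧ IsOrbitRealization k rk f) :=
  KOX.final hk hd

end Pool.Agent.Results.MP_0bb2d9_co.KOrbitExplicit
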