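import Pool.Agent.FO2.Final

/-!
# All two-orbit realizations of finite regular `d`-polytopes in `d`-space, for `d ≥ 9`
-/

namespace Pool.Agent.Results.MP_0bb2d9_co.TwoOrbit

open Lib_helper64.FO FO2

/-- For every `d ≥ 9` and every finite regular `d`-polytope `P`, a vertex map `f` is a two-orbit
realization of `P` in Euclidean `d`-space if and only if `(P, f)` belongs to one of four families:
the double simplices, the cubes with different radii for the even and the odd vertices, the double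
cross-polytopes, and, for even `d`, the polytope of type `{4, 6, 3, …, 3}` on the vertices of a
cube. The four posets are finite regular polytopes. -/
theorem result (d : ℕ) (hd : 9 ≤ d) :
    (∀ (P : Type) [PartialOrder P] [Finite P] (rk : P → ℤ), IsRegularPolytope d rk →
      ∀ f : P → EuclideanSpace ℝ (Fin d), IsOrbitRealization rk f 2 ↔
        (∃ (v : Fin (d + 1) → EuclideanSpace ℝ (Fin d)) (a b : ℝ),
          IsSimplex v ∧ a ≠ 0 ∧ b ≠ 0 ∧ a ^ 2 ≠ b ^ 2 ∧ Match rk f (S1 d) (0, false) (F1 v a b)) ∨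
        (∃ (u : OrthonormalBasis (Fin d) ℝ (EuclideanSpace ℝ (Fin d))) (a b : ℝ),
          a ≠ 0 ∧ b ≠ 0 ∧ a ^ 2 ≠ b ^ 2 ∧ Match rk f (S2 d) (fun _ => 1) (F2 u a b)) ∨
        (∃ (h : 0 < d) (u : OrthonormalBasis (Fin d) ℝ (EuclideanSpace ℝ (Fin d))) (a b : ℝ),
          a ≠ 0 ∧ b ≠ 0 ∧ a ^ 2 ≠ b ^ 2 ∧ Match rk f (S3 d) (⟨0, h⟩, 1, false) (F3 u a b)) ∨
        (∃ (he : Even d) (u : OrthonormalBasis (Fin d) ℝ (EuclideanSpace ℝ (Fin d))) (a : ℝ),
          a ≠ 0 ∧ Match rk f (S4 d he) (fun _ => 1) (F2 u a a))) ∧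
    IsRegularPolytope d (rkC (S := S1 d)) ∧ IsRegularPolytope d (rkC (S := S2 d)) ∧
    IsRegularPolytope d (rkC (S := S3 d)) ∧
    ∀ he : Even d, IsRegularPolytope d (rkC (S := S4 d he)) :=
  mainThm d hd

end Pool.Agent.Results.MP_0bb2d9_co.TwoOrbit
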